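import Pool.Agent.Helper3.AK.Goals1

/-!
# Project AK, packet FR (frame bound)
-/

set_option linter.unusedVariables false

namespace Pool.Agent.Helper3.AK

namespace FRP

open Finset

variable {n r : ℕ}

theorem ip_tst (c : Pts n r) (f : Fn n r) :
    ip (tst c) f = ∑ s : Fin r → Bool, sgn s * f (pick c s) := by
  unfold ip tst
  simp_rw [Finset.sum_mul, ite_mul, zero_mul]
  rw [Finset.sum_comm]
  refine Finset.sum_congr rfl fun s _ => ?_
  rw [Finset.sum_ite_eq, if_pos (Finset.mem_univ _)]

/-- the set of a choice -/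
def Js (s : Fin r → Bool) : Finset (Fin r) := univ.filter (fun i => s i = true)

theorem mem_Js (s : Fin r → Bool) (i : Fin r) : i ∈ Js s ↔ s i = true := by simp [Js]

theorem sgn_eq (s : Fin r → Bool) : sgn s = (-1) ^ (Js s).card := by
  unfold sgn Js
  rw [Finset.prod_ite]
  simp

/-- choices and sets -/
def eqv (r : ℕ) : (Fin r → Bool) ≃ Finset (Fin r) where
  toFun s := Js s
  invFun J := fun i => decide (i ∈ J)
  left_inv s := by
    funext i
    change decide (i ∈ Js s) = s i
    by_cases h : s i = true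
    · rw [decide_eq_true ((mem_Js s i).2 h), h]
    · rw [decide_eq_false (fun h' => h ((mem_Js s i).1 h'))]
      simpa using h
  right_inv J := by
    ext i
    rw [mem_Js]
    simp

/-- counting extensions -/
theorem ext_card {ι : Type} [Fintype ι] [DecidableEq ι] {m : ℕ} (p : ι → Prop) [DecidablePred p]
    (e : {i // p i} ↪ Fin m) :
    Fintype.card {c : ι ↪ Fin m // ∀ i (h : p i), c i = e ⟨i, h⟩} =
      (m - Fintype.card {i // p i}).descFactorial (Fintype.card {i // ¬ p i}) := by
  classical
  have h1 : Fintype.card {y : Fin m // ¬ y ∈ Set.range e} = m - Fintype.card {i // p i} := by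
    rw [Fintype.card_subtype_compl, Fintype.card_fin]
    congr 1
    exact (Fintype.card_congr (Equiv.ofInjective e e.injective)).symm
  rw [← h1, ← Fintype.card_embedding_eq]
  refine Fintype.card_congr
    { toFun := fun c => ⟨fun i => ⟨c.1 i.1, ?_⟩, ?_⟩
      invFun := fun g => ⟨⟨fun i => if h : p i then e ⟨i, h⟩ else (g ⟨i, h⟩).1, ?_⟩, ?_⟩
      left_inv := ?_
      right_inv := ?_ }
  · rintro ⟨j, hj⟩
    have h2 : c.1 j.1 = c.1 i.1 := (c.2 j.1 j.2).trans hj
    exact i.2 ((c.1.injective h2) ▸ j.2)
  · intro i j hij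
    exact Subtype.ext (c.1.injective (congrArg Subtype.val hij))
  · intro i j hij
    simp only at hij
    by_cases hi : p i <;> by_cases hj : p j
    · rw [dif_pos hi, dif_pos hj] at hij
      exact congrArg Subtype.val (e.injective hij)
    · rw [dif_pos hi, dif_neg hj] at hij
      exact absurd ⟨_, hij⟩ (g ⟨j, hj⟩).2
    · rw [dif_neg hi, dif_pos hj] at hij
      exact absurd ⟨_, hij.symm⟩ (g ⟨i, hi⟩).2
    · rw [dif_neg hi, dif_neg hj] at hij
      exact congrArg Subtype.val (g.injective (Subtype.ext hij))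
  · intro i h
    change (if h : p i then e ⟨i, h⟩ else (g ⟨i, h⟩).1) = _
    rw [dif_pos h]
  · intro c
    apply Subtype.ext
    ext i
    change ((if h : p i then e ⟨i, h⟩ else c.1 i) : Fin m).val = (c.1 i).val
    by_cases h : p i
    · rw [dif_pos h, c.2 i h]
    · rw [dif_neg h]
  · intro g
    ext i
    change ((if h : p i.1 then e ⟨i.1, h⟩ else (g ⟨i.1, h⟩).1) : Fin m).val = (g i).1.val
    rw [dif_neg i.2]

/-- the relation `b = a` off `J`, `b (J)` outside the range of `a` -/
def B1 (J : Finset (Fin r)) (a b : Fin r ↪ Fin n) : Prop :=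
  (∀ i, i ∉ J → b i = a i) ∧ ∀ i ∈ J, ∀ i', b i ≠ a i'

/-- the relation `b = a` off `J`, `b (J) ⊆ a (J)` -/
def B2 (J : Finset (Fin r)) (a b : Fin r ↪ Fin n) : Prop :=
  (∀ i, i ∉ J → b i = a i) ∧ ∀ i ∈ J, ∃ i' ∈ J, b i = a i'

instance (J : Finset (Fin r)) (a b : Fin r ↪ Fin n) : Decidable (B1 J a b) := by
  unfold B1; infer_instance

instance (J : Finset (Fin r)) (a b : Fin r ↪ Fin n) : Decidable (B2 J a b) := by
  unfold B2; infer_instance

/-- number of points with prescribed choices -/
theorem fiber_card (s : Fin r → Bool) (a b : Fin r ↪ Fin n) :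
    (univ.filter (fun c : Pts n r => pick c (fun _ => false) = a ∧ pick c s = b)).card =
      if B1 (Js s) a b then (n - (r + (Js s).card)).descFactorial (r - (Js s).card) else 0 := by
  classical
  split_ifs with h
  · -- the prescribed part
    let p : Fin r × Bool → Prop := fun q => q.2 = false ∨ s q.1 = true
    have hp1 : Fintype.card {q // p q} = r + (Js s).card := by
      rw [Fintype.card_subtype, Finset.card_filter, Fintype.sum_prod_type]
      have h0 : ∀ i : Fin r, (∑ x : Bool, if p (i, x) then 1 else 0) =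
          1 + if s i = true then 1 else 0 := by
        intro i
        rw [Fintype.sum_bool]
        by_cases hs : s i = true
        · simp [p, hs]
        · simp [p, hs]
      rw [Finset.sum_congr rfl fun i _ => h0 i, Finset.sum_add_distrib, ← Finset.card_filter,
        Finset.sum_const, smul_eq_mul, mul_one, Finset.card_fin]
      rfl
    have hp2 : Fintype.card {q // ¬ p q} = r - (Js s).card := by
      rw [Fintype.card_subtype_compl, hp1]
      simp only [Fintype.card_prod, Fintype.card_fin, Fintype.card_bool]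
      omega
    let e : {q // p q} ↪ Fin n :=
      ⟨fun q => if q.1.2 = false then a q.1.1 else b q.1.1, by
        rintro ⟨⟨i, x⟩, hi⟩ ⟨⟨j, y⟩, hj⟩ hij
        simp only at hij
        have hJ : ∀ {i : Fin r} {x : Bool}, p (i, x) → x = true → i ∈ Js s := by
          intro i x hi hx
          rcases hi with hi | hi
          · rw [hx] at hi; exact absurd hi (by simp)
          · exact (mem_Js s i).2 hi
        cases x <;> cases y <;> simp at hij
        · subst hij; rfl
        · exact absurd hij.symm (h.2 j (hJ hj rfl) i)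
        · exact absurd hij (h.2 i (hJ hi rfl) j)
        · subst hij; rfl⟩
    have hc := ext_card p e
    rw [hp1, hp2] at hc
    rw [← hc, Fintype.card_subtype]
    congr 1
    ext c
    simp only [Finset.mem_filter, Finset.mem_univ, true_and]
    constructor
    · rintro ⟨h1, h2⟩ ⟨i, x⟩ hi
      change c (i, x) = if x = false then a i else b i
      cases x
      · rw [if_pos rfl, ← h1]; rfl
      · rw [if_neg (by simp), ← h2]
        have : s i = true := by
          rcases hi with hi | hi
          · exact absurd hi (by simp)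
          · exact hi
        change c (i, true) = c (i, s i)
        rw [this]
    · intro hcc
      constructor
      · ext i
        have := hcc (i, false) (Or.inl rfl)
        change (c (i, false)).val = (a i).val
        rw [this]
        rfl
      · ext i
        change (c (i, s i)).val = (b i).val
        by_cases hs : s i = true
        · rw [hs, hcc (i, true) (Or.inr hs)]
          rfl
        · have hs' : s i = false := by simpa using hs
          rw [hs', hcc (i, false) (Or.inl rfl), h.1 i (fun h' => hs ((mem_Js s i).1 h'))]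
          rfl
  · rw [Finset.card_eq_zero, Finset.filter_eq_empty_iff]
    rintro c - ⟨h1, h2⟩
    apply h
    subst h1 h2
    constructor
    · intro i hi
      have : s i = false := by
        by_contra h3
        exact hi ((mem_Js s i).2 (by simpa using h3))
      change c (i, s i) = c (i, false)
      rw [this]
    · intro i hi i' h3
      have h4 := c.injective (show c (i, s i) = c (i', false) from h3)
      have h5 := congrArg Prod.snd h4
      rw [(mem_Js s i).1 hi] at h5
      exact absurd h5 (by simp)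

/-- the quadratic form of a set -/
noncomputable def Q (f : Fn n r) (J : Finset (Fin r)) : ℝ :=
  ∑ a, f a * ∑ b ∈ univ.filter (fun b : Fin r ↪ Fin n =>
      (∀ i, i ∉ J → b i = a i) ∧ ∀ i ∈ J, ∃ i' ∈ J, b i = a i'), f b

theorem T_eq (h : S_FRI) (f : Fn n r) (hf : Zm f) (s : Fin r → Bool) :
    ∑ c : Pts n r, f (pick c (fun _ => false)) * f (pick c s) =
      ((n - (r + (Js s).card)).descFactorial (r - (Js s).card) : ℝ) *
        ((-1) ^ (Js s).card * Q f (Js s)) := by
  classical
  have h1 : ∑ c : Pts n r, f (pick c (fun _ => false)) * f (pick c s) =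
      ∑ y : (Fin r ↪ Fin n) × (Fin r ↪ Fin n),
        ∑ c ∈ univ.filter (fun c : Pts n r => (pick c (fun _ => false), pick c s) = y),
          f (pick c (fun _ => false)) * f (pick c s) :=
    (Finset.sum_fiberwise univ (fun c : Pts n r => (pick c (fun _ => false), pick c s)) _).symm
  rw [h1, Fintype.sum_prod_type]
  unfold Q
  rw [Finset.mul_sum, Finset.mul_sum]
  refine Finset.sum_congr rfl fun a _ => ?_
  have h2 := h n r f hf (Js s) a
  have h3 : ∀ b : Fin r ↪ Fin n,
      ∑ c ∈ univ.filter (fun c : Pts n r => (pick c (fun _ => false), pick c s) = (a, b)),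
          f (pick c (fun _ => false)) * f (pick c s) =
      if B1 (Js s) a b then
        ((n - (r + (Js s).card)).descFactorial (r - (Js s).card) : ℝ) * (f a * f b) else 0 := by
    intro b
    have h4 : ∀ c ∈ univ.filter (fun c : Pts n r => (pick c (fun _ => false), pick c s) = (a, b)),
        f (pick c (fun _ => false)) * f (pick c s) = f a * f b := by
      intro c hc
      have h5 := (Finset.mem_filter.1 hc).2
      rw [Prod.mk.injEq] at h5
      rw [h5.1, h5.2]
    rw [Finset.sum_congr rfl h4, Finset.sum_const, nsmul_eq_mul]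
    have h6 : univ.filter (fun c : Pts n r => (pick c (fun _ => false), pick c s) = (a, b)) =
        univ.filter (fun c : Pts n r => pick c (fun _ => false) = a ∧ pick c s = b) := by
      ext c
      simp only [Finset.mem_filter, Prod.mk.injEq]
    rw [h6, fiber_card]
    split_ifs <;> simp
  rw [Finset.sum_congr rfl fun b _ => h3 b, ← Finset.sum_filter, ← Finset.mul_sum,
    ← Finset.mul_sum]
  congr 1
  have h7 : (-1 : ℝ) ^ (Js s).card * (-1) ^ (Js s).card = 1 := by
    rw [← mul_pow]; norm_num
  have h8 : ∑ b ∈ univ.filter (fun b => B1 (Js s) a b), f b = _ := h2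
  rw [h8]
  ring

/-- the permutation of a related pair -/
noncomputable def emb (J : Finset (Fin r)) (a b : Fin r ↪ Fin n) (h : B2 J a b) :
    {i // i ∈ J} ↪ {i // i ∈ J} where
  toFun i := ⟨(h.2 i.1 i.2).choose, (h.2 i.1 i.2).choose_spec.1⟩
  inj' := by
    intro i j hij
    have h1 := (h.2 i.1 i.2).choose_spec.2
    have h2 := (h.2 j.1 j.2).choose_spec.2
    have h3 := congrArg Subtype.val hij
    simp only at h3
    rw [h3] at h1
    exact Subtype.ext (b.injective (h1.trans h2.symm))

theorem emb_spec (J : Finset (Fin r)) (a b : Fin r ↪ Fin n) (h : B2 J a b) (i : {i // i ∈ J}) :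
    b i.1 = a (emb J a b h i).1 := (h.2 i.1 i.2).choose_spec.2

theorem card_right (J : Finset (Fin r)) (a : Fin r ↪ Fin n) :
    (univ.filter (fun b : Fin r ↪ Fin n => B2 J a b)).card ≤ J.card.factorial := by
  classical
  rw [← Fintype.card_subtype]
  have h : Fintype.card ({i // i ∈ J} ↪ {i // i ∈ J}) = J.card.factorial := by
    rw [Fintype.card_embedding_eq, Fintype.card_coe, Nat.descFactorial_self]
  rw [← h]
  refine Fintype.card_le_of_injective (fun b : {b : Fin r ↪ Fin n // B2 J a b} => emb J a b.1 b.2)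
    fun b b' hb => ?_
  apply Subtype.ext
  ext i
  by_cases hi : i ∈ J
  · have h1 := emb_spec J a b.1 b.2 ⟨i, hi⟩
    have h2 := emb_spec J a b'.1 b'.2 ⟨i, hi⟩
    simp only at hb h1 h2
    rw [h1, h2, hb]
  · rw [b.2.1 i hi, b'.2.1 i hi]

theorem card_left (J : Finset (Fin r)) (b : Fin r ↪ Fin n) :
    (univ.filter (fun a : Fin r ↪ Fin n => B2 J a b)).card ≤ J.card.factorial := by
  classical
  rw [← Fintype.card_subtype]
  have h : Fintype.card ({i // i ∈ J} ↪ {i // i ∈ J}) = J.card.factorial := by
    rw [Fintype.card_embedding_eq, Fintype.card_coe, Nat.descFactorial_self]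
  rw [← h]
  refine Fintype.card_le_of_injective (fun a : {a : Fin r ↪ Fin n // B2 J a b} => emb J a.1 b a.2)
    fun a a' ha => ?_
  apply Subtype.ext
  ext i
  by_cases hi : i ∈ J
  · obtain ⟨j, hj⟩ := (Finite.injective_iff_surjective.1 (emb J a.1 b a.2).injective) ⟨i, hi⟩
    have h1 := emb_spec J a.1 b a.2 j
    have h2 := emb_spec J a'.1 b a'.2 j
    have ha' : emb J a.1 b a.2 = emb J a'.1 b a'.2 := ha
    rw [← ha'] at h2
    have hj' : emb J a.1 b a.2 j = ⟨i, hi⟩ := hj
    rw [hj'] at h1 h2
    have h3 : a.1 i = a'.1 i := h1.symm.trans h2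
    rw [h3]
  · rw [← a.2.1 i hi, ← a'.2.1 i hi]

theorem Q_bound (f : Fn n r) (J : Finset (Fin r)) :
    |Q f J| ≤ (J.card.factorial : ℝ) * ∑ a, f a ^ 2 := by
  classical
  have h1 : Q f J = ∑ a, ∑ b, if B2 J a b then f a * f b else 0 := by
    unfold Q
    refine Finset.sum_congr rfl fun a _ => ?_
    rw [Finset.mul_sum, Finset.sum_filter]
    rfl
  have h2 : |Q f J| ≤ ∑ a, ∑ b, if B2 J a b then (f a ^ 2 + f b ^ 2) / 2 else 0 := by
    rw [h1]
    refine (Finset.abs_sum_le_sum_abs _ _).trans (Finset.sum_le_sum fun a _ => ?_)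
    refine (Finset.abs_sum_le_sum_abs _ _).trans (Finset.sum_le_sum fun b _ => ?_)
    split_ifs
    · rw [abs_le]
      constructor <;> nlinarith [sq_nonneg (f a - f b), sq_nonneg (f a + f b)]
    · simp
  have h3 : ∑ a, ∑ b, (if B2 J a b then (f a ^ 2 + f b ^ 2) / 2 else 0) =
      (∑ a, ∑ b, if B2 J a b then f a ^ 2 / 2 else 0) +
        ∑ b, ∑ a, if B2 J a b then f b ^ 2 / 2 else 0 := by
    rw [Finset.sum_comm (s := univ) (t := univ)
      (f := fun b a => if B2 J a b then f b ^ 2 / 2 else 0), ← Finset.sum_add_distrib]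
    refine Finset.sum_congr rfl fun a _ => ?_
    rw [← Finset.sum_add_distrib]
    refine Finset.sum_congr rfl fun b _ => ?_
    split_ifs
    · ring
    · simp
  have h4 : ∀ a, (∑ b, if B2 J a b then f a ^ 2 / 2 else 0) ≤
      (J.card.factorial : ℝ) * (f a ^ 2 / 2) := by
    intro a
    rw [← Finset.sum_filter, Finset.sum_const, nsmul_eq_mul]
    exact mul_le_mul_of_nonneg_right (Nat.cast_le.2 (card_right J a)) (by positivity)
  have h5 : ∀ b, (∑ a, if B2 J a b then f b ^ 2 / 2 else 0) ≤
      (J.card.factorial : ℝ) * (f b ^ 2 / 2) := by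
    intro b
    rw [← Finset.sum_filter, Finset.sum_const, nsmul_eq_mul]
    exact mul_le_mul_of_nonneg_right (Nat.cast_le.2 (card_left J b)) (by positivity)
  rw [h3] at h2
  refine h2.trans ((add_le_add (Finset.sum_le_sum fun a _ => h4 a)
    (Finset.sum_le_sum fun a _ => h5 a)).trans (le_of_eq ?_))
  rw [← Finset.mul_sum, ← mul_add, ← Finset.sum_div]
  ring

theorem Q_empty (f : Fn n r) : Q f ∅ = ∑ a, f a ^ 2 := by
  unfold Q
  refine Finset.sum_congr rfl fun a _ => ?_
  have h : univ.filter (fun b : Fin r ↪ Fin n => (∀ i, i ∉ (∅ : Finset (Fin r)) → b i = a i) ∧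
      ∀ i ∈ (∅ : Finset (Fin r)), ∃ i' ∈ (∅ : Finset (Fin r)), b i = a i') = {a} := by
    ext b
    simp only [Finset.mem_filter, Finset.mem_univ, true_and, Finset.mem_singleton]
    constructor
    · rintro ⟨h1, -⟩
      ext i
      rw [h1 i (by simp)]
    · rintro rfl
      exact ⟨fun i _ => rfl, fun i hi => absurd hi (by simp)⟩
  rw [h, Finset.sum_singleton]
  ring

theorem num1 (h : 5 * r ≤ n) : ∀ j : ℕ, j ≤ r →
    4 ^ j * r.descFactorial j ≤ (n - r).descFactorial j
  | 0, _ => by simp
  | j + 1, hj => by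
    rw [Nat.descFactorial_succ, Nat.descFactorial_succ, pow_succ]
    have h1 := num1 h j (by omega)
    have h2 : 4 * (r - j) ≤ n - r - j := by omega
    calc 4 ^ j * 4 * ((r - j) * r.descFactorial j) = (4 * (r - j)) * (4 ^ j * r.descFactorial j) := by
          ring
      _ ≤ (n - r - j) * (n - r).descFactorial j := Nat.mul_le_mul h2 h1

theorem num2 (h : 5 * r ≤ n) (j : ℕ) (hj : j ≤ r) :
    4 ^ j * ((n - (r + j)).descFactorial (r - j) * r.descFactorial j) ≤
      (n - r).descFactorial r := by
  have h1 := Nat.descFactorial_mul_descFactorial (n := n - r) hj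
  have h2 : n - r - j = n - (r + j) := by omega
  rw [h2] at h1
  rw [← h1]
  calc 4 ^ j * ((n - (r + j)).descFactorial (r - j) * r.descFactorial j)
      = (n - (r + j)).descFactorial (r - j) * (4 ^ j * r.descFactorial j) := by ring
    _ ≤ _ := Nat.mul_le_mul_left _ (num1 h j hj)

/-- the weights -/
noncomputable def M (n r : ℕ) (j : ℕ) : ℝ := ((n - (r + j)).descFactorial (r - j) : ℝ)

theorem sum_bound (h : 5 * r ≤ n) :
    ∑ J ∈ (univ : Finset (Finset (Fin r))).erase ∅, M n r J.card * (J.card.factorial : ℝ) ≤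
      ((n - r).descFactorial r : ℝ) / 3 := by
  classical
  have h0 : ∑ J : Finset (Fin r), M n r J.card * (J.card.factorial : ℝ) =
      ∑ j ∈ range (r + 1), ((r.choose j : ℕ) : ℝ) * (M n r j * (j.factorial : ℝ)) := by
    have h1 := Finset.sum_powerset_apply_card
      (fun j => M n r j * (j.factorial : ℝ)) (x := (univ : Finset (Fin r)))
    rw [Finset.powerset_univ, Finset.card_fin] at h1
    rw [h1]
    refine Finset.sum_congr rfl fun j _ => ?_
    rw [nsmul_eq_mul]
  have h1 : ∑ J ∈ (univ : Finset (Finset (Fin r))).erase ∅, M n r J.card * (J.card.factorial : ℝ) +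
      M n r 0 = ∑ J : Finset (Fin r), M n r J.card * (J.card.factorial : ℝ) := by
    have h2 := Finset.sum_erase_add (univ : Finset (Finset (Fin r)))
      (fun J : Finset (Fin r) => M n r J.card * (J.card.factorial : ℝ)) (Finset.mem_univ ∅)
    rw [← h2]
    simp
  have h2 : M n r 0 = ((n - r).descFactorial r : ℝ) := by unfold M; simp
  rw [Finset.sum_range_succ'] at h0
  have h3 : ∀ j ∈ range r, ((r.choose (j + 1) : ℕ) : ℝ) *
      (M n r (j + 1) * ((j + 1).factorial : ℝ)) ≤
        ((n - r).descFactorial r : ℝ) * (1 / 4) ^ (j + 1) := by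
    intro j hj
    have h4 := num2 h (j + 1) (by have := Finset.mem_range.1 hj; omega)
    have h5 : (r.descFactorial (j + 1) : ℝ) = ((j + 1).factorial : ℝ) * (r.choose (j + 1) : ℝ) := by
      exact_mod_cast Nat.descFactorial_eq_factorial_mul_choose r (j + 1)
    have h6 : (4 : ℝ) ^ (j + 1) * (M n r (j + 1) * (r.descFactorial (j + 1) : ℝ)) ≤
        ((n - r).descFactorial r : ℝ) := by
      unfold M
      exact_mod_cast h4
    have h7 : (0 : ℝ) < 4 ^ (j + 1) := by positivity
    have h8 : M n r (j + 1) * (r.descFactorial (j + 1) : ℝ) ≤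
        ((n - r).descFactorial r : ℝ) / 4 ^ (j + 1) := by
      rw [le_div_iff₀ h7]
      linarith [mul_comm ((4 : ℝ) ^ (j + 1)) (M n r (j + 1) * (r.descFactorial (j + 1) : ℝ))]
    rw [h5] at h8
    calc ((r.choose (j + 1) : ℕ) : ℝ) * (M n r (j + 1) * ((j + 1).factorial : ℝ))
        = M n r (j + 1) * (((j + 1).factorial : ℝ) * (r.choose (j + 1) : ℝ)) := by ring
      _ ≤ ((n - r).descFactorial r : ℝ) / 4 ^ (j + 1) := h8
      _ = ((n - r).descFactorial r : ℝ) * (1 / 4) ^ (j + 1) := by
          rw [one_div, inv_pow]; rfl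
  have h4 := Finset.sum_le_sum h3
  rw [← Finset.mul_sum] at h4
  have h5 : ∑ j ∈ range r, (1 / 4 : ℝ) ^ (j + 1) ≤ 1 / 3 := by
    have h6 : ∀ m : ℕ, ∑ j ∈ range m, (1 / 4 : ℝ) ^ (j + 1) = (1 - (1 / 4) ^ m) / 3 := by
      intro m
      induction m with
      | zero => simp
      | succ m ih =>
        rw [Finset.sum_range_succ, ih]
        ring
    rw [h6]
    have : (0 : ℝ) ≤ (1 / 4) ^ r := by positivity
    linarith
  have h6 : ((n - r).descFactorial r : ℝ) * ∑ j ∈ range r, (1 / 4 : ℝ) ^ (j + 1) ≤
      ((n - r).descFactorial r : ℝ) * (1 / 3) :=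
    mul_le_mul_of_nonneg_left h5 (Nat.cast_nonneg _)
  have h7 : ((r.choose 0 : ℕ) : ℝ) * (M n r 0 * ((0 : ℕ).factorial : ℝ)) = M n r 0 := by simp
  rw [h7] at h0
  linarith

end FRP

open FRP Finset in
/-- frame bound -/
theorem fr (h : S_FRI) : S_FR := by
  classical
  intro n r hnr f hf
  set D : ℝ := ((n - r).descFactorial r : ℝ) with hD
  set W : ℝ := ∑ a, f a ^ 2 with hW
  have hW0 : 0 ≤ W := Finset.sum_nonneg fun a _ => sq_nonneg _
  have hDpos : 0 < D := by
    rw [hD]
    exact_mod_cast (Nat.descFactorial_pos).2 (by omega)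
  -- the mixed sum
  have h1 : ∑ c : Pts n r, f (pick c (fun _ => false)) * ip (tst c) f =
      ∑ J : Finset (Fin r), M n r J.card * Q f J := by
    rw [← Equiv.sum_comp (eqv r)]
    have h2 : ∀ c : Pts n r, f (pick c (fun _ => false)) * ip (tst c) f =
        ∑ s : Fin r → Bool, sgn s * (f (pick c (fun _ => false)) * f (pick c s)) := by
      intro c
      rw [ip_tst, Finset.mul_sum]
      refine Finset.sum_congr rfl fun s _ => ?_
      ring
    rw [Finset.sum_congr rfl fun c _ => h2 c, Finset.sum_comm]
    refine Finset.sum_congr rfl fun s _ => ?_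
    rw [← Finset.mul_sum, T_eq h f hf s, sgn_eq]
    have h7 : (-1 : ℝ) ^ (Js s).card * (-1) ^ (Js s).card = 1 := by
      rw [← mul_pow]; norm_num
    change _ = M n r (Js s).card * Q f (Js s)
    unfold M
    calc (-1 : ℝ) ^ (Js s).card * (((n - (r + (Js s).card)).descFactorial (r - (Js s).card) : ℝ) *
        ((-1) ^ (Js s).card * Q f (Js s))) = ((-1 : ℝ) ^ (Js s).card * (-1) ^ (Js s).card) *
          (((n - (r + (Js s).card)).descFactorial (r - (Js s).card) : ℝ) * Q f (Js s)) := by ring
      _ = _ := by rw [h7, one_mul]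
  have h2 : (2 / 3) * D * W ≤ ∑ c : Pts n r, f (pick c (fun _ => false)) * ip (tst c) f := by
    rw [h1]
    have h3 := Finset.sum_erase_add (univ : Finset (Finset (Fin r)))
      (fun J : Finset (Fin r) => M n r J.card * Q f J) (Finset.mem_univ ∅)
    rw [← h3]
    have h4 : M n r (∅ : Finset (Fin r)).card * Q f ∅ = D * W := by
      rw [Q_empty]
      unfold M
      simp [hD, hW]
    have h5 : -(∑ J ∈ (univ : Finset (Finset (Fin r))).erase ∅,
        M n r J.card * (J.card.factorial : ℝ)) * W ≤
        ∑ J ∈ (univ : Finset (Finset (Fin r))).erase ∅, M n r J.card * Q f J := by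
      rw [← Finset.sum_neg_distrib, Finset.sum_mul]
      refine Finset.sum_le_sum fun J _ => ?_
      have h6 := (abs_le.1 (Q_bound f J)).1
      have h7 : 0 ≤ M n r J.card := Nat.cast_nonneg _
      calc -(M n r J.card * (J.card.factorial : ℝ)) * W =
          M n r J.card * (-((J.card.factorial : ℝ) * W)) := by ring
        _ ≤ M n r J.card * Q f J := mul_le_mul_of_nonneg_left h6 h7
    have h6 := sum_bound (n := n) (r := r) hnr
    have h7 : (∑ J ∈ (univ : Finset (Finset (Fin r))).erase ∅,
        M n r J.card * (J.card.factorial : ℝ)) * W ≤ D / 3 * W :=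
      mul_le_mul_of_nonneg_right h6 hW0
    rw [h4]
    linarith
  -- the norm of the first factor
  have h3 : ∑ c : Pts n r, f (pick c (fun _ => false)) ^ 2 = D * W := by
    have h4 := T_eq h f hf (fun _ => false)
    have h5 : Js (fun _ : Fin r => false) = ∅ := by
      ext i
      rw [mem_Js]
      simp
    rw [h5, Q_empty] at h4
    simp only [Finset.card_empty, add_zero, Nat.sub_zero, pow_zero, one_mul] at h4
    rw [← h4]
    refine Finset.sum_congr rfl fun c _ => ?_
    ring
  have h4 := Finset.sum_mul_sq_le_sq_mul_sq (univ : Finset (Pts n r))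
    (fun c => f (pick c (fun _ => false))) (fun c => ip (tst c) f)
  rw [h3] at h4
  rcases hW0.eq_or_lt with hW1 | hW1
  · rw [← hW1, mul_zero]
    exact Finset.sum_nonneg fun c _ => sq_nonneg _
  · have h5 : 0 < D * W := mul_pos hDpos hW1
    have h6 : ((2 / 3) * D * W) ^ 2 ≤ D * W * ∑ c : Pts n r, ip (tst c) f ^ 2 := by
      refine le_trans ?_ h4
      exact pow_le_pow_left₀ (by positivity) h2 2
    have h7 : D * W * ((4 / 9) * D * W) ≤ D * W * ∑ c : Pts n r, ip (tst c) f ^ 2 := by
      refine le_trans (le_of_eq ?_) h6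
      ring
    exact le_of_mul_le_mul_left h7 h5

end Pool.Agent.Helper3.AK
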