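import Pool.Agent.Helper3.AK.Goals4

/-!
# Project AK, packet HCT (the number of sets with small boundary)
-/

set_option linter.unusedVariables false

namespace Pool.Agent.Helper3.AK

namespace HCTP

open Finset Equiv

variable {n : ℕ}

theorem pow_le_choose (n : ℕ) : ∀ h : ℕ, h ≤ n → n ^ h ≤ n.choose h * h ^ h := by
  induction n with
  | zero => intro h hh; obtain rfl : h = 0 := by omega
            simp
  | succ n ih =>
    intro h hh
    rcases h with _ | h
    · simp
    · have h1 := Nat.add_one_mul_choose_eq n h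
      have h2 := ih h (by omega)
      rcases Nat.eq_zero_or_pos h with h0 | h0
      · subst h0
        simp
      · have h3 : (n + 1) ^ h * h ^ h ≤ n ^ h * (h + 1) ^ h := by
          rw [← mul_pow, ← mul_pow]
          refine Nat.pow_le_pow_left ?_ h
          nlinarith
        have h4 : (n + 1) ^ h * h ^ h ≤ n.choose h * (h + 1) ^ h * h ^ h := by
          refine h3.trans ((Nat.mul_le_mul_right _ h2).trans (le_of_eq ?_))
          ring
        have h5 : (n + 1) ^ h ≤ n.choose h * (h + 1) ^ h :=
          Nat.le_of_mul_le_mul_right h4 (by positivity)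
        calc (n + 1) ^ (h + 1) = (n + 1) * (n + 1) ^ h := by ring
          _ ≤ (n + 1) * (n.choose h * (h + 1) ^ h) := Nat.mul_le_mul_left _ h5
          _ = ((n + 1) * n.choose h) * (h + 1) ^ h := by ring
          _ = ((n + 1).choose (h + 1) * (h + 1)) * (h + 1) ^ h := by
              rw [show (n + 1) * n.choose h = (n + 1).choose (h + 1) * (h + 1) from h1]
          _ = (n + 1).choose (h + 1) * (h + 1) ^ (h + 1) := by ring

/-- transitivity of the even permutations on the sets of a given size -/
theorem exists_even {h : ℕ} (hn : h + 2 ≤ n) (A B : Finset (Fin n)) (hA : A.card = h)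
    (hB : B.card = h) : ∃ y : Alt n, A.image (y : Perm (Fin n)) = B := by
  classical
  have e : {x // x ∈ A} ≃ {x // x ∈ B} := Finset.equivOfCardEq (hA.trans hB.symm)
  have key : ∃ σ : Perm (Fin n), A.image σ = B := by
    refine ⟨e.extendSubtype, ?_⟩
    refine Finset.eq_of_subset_of_card_le ?_ ?_
    · intro y hy
      obtain ⟨x, hx, rfl⟩ := Finset.mem_image.1 hy
      exact e.extendSubtype_mem x hx
    · rw [Finset.card_image_of_injective _ (Equiv.injective _), hA, hB]
  obtain ⟨σ, hσ⟩ := key
  rcases Int.units_eq_one_or (Perm.sign σ) with h1 | h1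
  · exact ⟨⟨σ, Perm.mem_alternatingGroup.2 h1⟩, hσ⟩
  · have hc : 1 < (Aᶜ).card := by
      rw [Finset.card_compl, Fintype.card_fin, hA]
      omega
    obtain ⟨a, ha, b, hb, hab⟩ := Finset.one_lt_card.1 hc
    refine ⟨⟨σ * swap a b, Perm.mem_alternatingGroup.2 ?_⟩, ?_⟩
    · rw [Perm.sign_mul, h1, Perm.sign_swap hab]
      simp
    · rw [← hσ]
      refine Finset.image_congr fun x hx => ?_
      have hxa : x ≠ a := fun h' => (Finset.mem_compl.1 ha) (h' ▸ hx)
      have hxb : x ≠ b := fun h' => (Finset.mem_compl.1 hb) (h' ▸ hx)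
      change σ (swap a b x) = σ x
      rw [swap_apply_of_ne_of_ne hxa hxb]

/-- number of even permutations which map `A` to `B` -/
def cnt (A B : Finset (Fin n)) : ℕ :=
  (univ.filter fun x : Alt n => A.image (x : Perm (Fin n)) = B).card

theorem cnt_eq {h : ℕ} (hn : h + 2 ≤ n) (A B B' : Finset (Fin n)) (hB : B.card = h)
    (hB' : B'.card = h) : cnt A B = cnt A B' := by
  classical
  obtain ⟨y, hy⟩ := exists_even hn B B' hB hB'
  unfold cnt
  refine Finset.card_bij (fun x _ => y * x) ?_ ?_ ?_
  · intro x hx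
    have hx' := (Finset.mem_filter.1 hx).2
    refine Finset.mem_filter.2 ⟨Finset.mem_univ _, ?_⟩
    rw [← hy, ← hx', Finset.image_image]
    rfl
  · intro x _ x' _ h'
    exact mul_left_cancel h'
  · intro x hx
    have hx' := (Finset.mem_filter.1 hx).2
    refine ⟨y⁻¹ * x, Finset.mem_filter.2 ⟨Finset.mem_univ _, ?_⟩, by simp⟩
    have h1 : B = B'.image ((y⁻¹ : Alt n) : Perm (Fin n)) := by
      rw [← hy, Finset.image_image]
      have : (((y⁻¹ : Alt n) : Perm (Fin n)) : Fin n → Fin n) ∘ ((y : Perm (Fin n)) : Fin n → Fin n)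
          = id := by
        funext v
        change ((y⁻¹ : Alt n) : Perm (Fin n)) ((y : Perm (Fin n)) v) = v
        simp
      rw [this, Finset.image_id]
    rw [h1, ← hx', Finset.image_image]
    rfl

theorem cnt_sum {h : ℕ} (A : Finset (Fin n)) (hA : A.card = h) :
    ∑ B ∈ (univ : Finset (Fin n)).powersetCard h, cnt A B = Fintype.card (Alt n) := by
  classical
  unfold cnt
  rw [← Finset.card_eq_sum_card_fiberwise (f := fun x : Alt n => A.image (x : Perm (Fin n)))]
  · rfl
  · intro x _
    rw [Finset.mem_coe, Finset.mem_powersetCard]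
    exact ⟨Finset.subset_univ _, by
      rw [Finset.card_image_of_injective _ (Equiv.injective _), hA]⟩

theorem cnt_val {h : ℕ} (hn : h + 2 ≤ n) (A B : Finset (Fin n)) (hA : A.card = h)
    (hB : B.card = h) : n.choose h * cnt A B = Fintype.card (Alt n) := by
  classical
  rw [← cnt_sum A hA]
  have : ∀ B' ∈ (univ : Finset (Fin n)).powersetCard h, cnt A B' = cnt A B := fun B' hB' =>
    cnt_eq hn A B' B (Finset.mem_powersetCard.1 hB').2 hB
  rw [Finset.sum_congr rfl this, Finset.sum_const, Finset.card_powersetCard, Finset.card_fin,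
    smul_eq_mul]

/-- the sets near `H` -/
def near (h b : ℕ) (H : Finset (Fin n)) : Finset (Finset (Fin n)) :=
  ((univ : Finset (Fin n)).powersetCard h).filter fun B => (B \ H).card ≤ b

theorem near_card {h b : ℕ} (hn : 1 ≤ n) (H : Finset (Fin n)) (hH : H.card = h) :
    (near h b H).card ≤ 2 ^ h * n ^ b := by
  classical
  have h1 : (near h b H).card = ∑ A ∈ H.powerset, ((near h b H).filter fun B => B ∩ H = A).card := by
    refine Finset.card_eq_sum_card_fiberwise fun B _ => ?_
    rw [Finset.mem_coe, Finset.mem_powerset]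
    exact Finset.inter_subset_right
  rw [h1]
  have h2 : ∀ A ∈ H.powerset, ((near h b H).filter fun B => B ∩ H = A).card ≤ n ^ b := by
    intro A hA
    have h3 : ∀ B ∈ (near h b H).filter (fun B => B ∩ H = A), (B \ H).card = h - A.card ∧
        (B \ H).card ≤ b ∧ B = A ∪ (B \ H) := by
      intro B hB
      obtain ⟨hB1, hB2⟩ := Finset.mem_filter.1 hB
      obtain ⟨hB3, hB4⟩ := Finset.mem_filter.1 hB1
      have hB5 := (Finset.mem_powersetCard.1 hB3).2
      have h6 := Finset.card_sdiff_add_card_inter B H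
      rw [hB2] at h6
      refine ⟨by omega, hB4, ?_⟩
      rw [← hB2, Finset.union_comm]
      exact (Finset.sdiff_union_inter B H).symm
    by_cases hAb : h - A.card ≤ b
    · calc ((near h b H).filter fun B => B ∩ H = A).card
          ≤ ((univ : Finset (Fin n)).powersetCard (h - A.card)).card := by
            refine Finset.card_le_card_of_injOn (fun B => B \ H) ?_ ?_
            · intro B hB
              rw [Finset.mem_coe, Finset.mem_powersetCard]
              exact ⟨Finset.subset_univ _, (h3 B hB).1⟩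
            · intro B hB B' hB' hBB
              have hBB' : B \ H = B' \ H := hBB
              rw [(h3 B hB).2.2, (h3 B' hB').2.2, hBB']
        _ = n.choose (h - A.card) := by rw [Finset.card_powersetCard, Finset.card_fin]
        _ ≤ n ^ (h - A.card) := Nat.choose_le_pow n _
        _ ≤ n ^ b := Nat.pow_le_pow_right hn hAb
    · have h4 : (near h b H).filter (fun B => B ∩ H = A) = ∅ := by
        rw [Finset.eq_empty_iff_forall_notMem]
        intro B hB
        have := h3 B hB
        omega
      rw [h4]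
      simp
  refine (Finset.sum_le_sum h2).trans ?_
  rw [Finset.sum_const, Finset.card_powerset, hH, smul_eq_mul]

theorem bdry (H : Finset (Fin n)) (x : Alt n) :
    (H.filter fun v => (x : Perm (Fin n)) v ∉ H).card = (H.image (x : Perm (Fin n)) \ H).card := by
  classical
  rw [← Finset.card_image_of_injective _ (Equiv.injective (x : Perm (Fin n)))]
  congr 1
  ext v
  simp only [Finset.mem_image, Finset.mem_filter, Finset.mem_sdiff]
  constructor
  · rintro ⟨w, ⟨hw, hw'⟩, rfl⟩
    exact ⟨⟨w, hw, rfl⟩, hw'⟩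
  · rintro ⟨⟨w, hw, rfl⟩, hw'⟩
    exact ⟨w, ⟨hw, hw'⟩, rfl⟩

theorem good_card {h b : ℕ} (hn : h + 2 ≤ n) (H : Finset (Fin n)) (hH : H.card = h) :
    n.choose h * (univ.filter fun x : Alt n =>
      (H.filter fun v => (x : Perm (Fin n)) v ∉ H).card ≤ b).card ≤
      2 ^ h * n ^ b * Fintype.card (Alt n) := by
  classical
  have h1 : (univ.filter fun x : Alt n =>
      (H.filter fun v => (x : Perm (Fin n)) v ∉ H).card ≤ b).card =
      ∑ B ∈ near h b H, ((univ.filter fun x : Alt n =>
      (H.filter fun v => (x : Perm (Fin n)) v ∉ H).card ≤ b).filter fun x : Alt n =>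
        H.image (x : Perm (Fin n)) = B).card := by
    refine Finset.card_eq_sum_card_fiberwise fun x hx => ?_
    have hx' := (Finset.mem_filter.1 hx).2
    rw [bdry] at hx'
    rw [Finset.mem_coe]
    refine Finset.mem_filter.2 ⟨Finset.mem_powersetCard.2 ⟨Finset.subset_univ _, ?_⟩, hx'⟩
    rw [Finset.card_image_of_injective _ (Equiv.injective _), hH]
  rw [h1, Finset.mul_sum]
  have h2 : ∀ B ∈ near h b H, n.choose h * ((univ.filter fun x : Alt n =>
      (H.filter fun v => (x : Perm (Fin n)) v ∉ H).card ≤ b).filter fun x : Alt n =>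
        H.image (x : Perm (Fin n)) = B).card ≤ Fintype.card (Alt n) := by
    intro B hB
    have hB' := (Finset.mem_powersetCard.1 (Finset.mem_filter.1 hB).1).2
    rw [← cnt_val hn H B hH hB']
    refine Nat.mul_le_mul_left _ (Finset.card_le_card ?_)
    intro x hx
    exact Finset.mem_filter.2 ⟨Finset.mem_univ _, (Finset.mem_filter.1 hx).2⟩
  refine (Finset.sum_le_sum h2).trans ?_
  rw [Finset.sum_const, smul_eq_mul]
  exact Nat.mul_le_mul_right _ (near_card (by omega) H hH)

theorem pair_card (p : Alt n → Prop) [DecidablePred p] :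
    Nat.card {x : Fin 2 → Alt n // ∀ i : Fin 2, p (x i)} = (univ.filter p).card ^ 2 := by
  classical
  rw [Nat.card_congr (Equiv.subtypePiEquivPi (β := fun _ : Fin 2 => Alt n) (p := fun _ a => p a)),
    Nat.card_pi, Fin.prod_const]
  rw [Nat.card_eq_fintype_card, Fintype.card_subtype]

end HCTP

open HCTP Finset in
/-- the number of sets with small boundary -/
theorem hct : S_HCT := by
  classical
  intro n h b h1 hn
  set A : ℝ := (Nat.card (Alt n) : ℝ) with hA
  have hA0 : 0 ≤ A := Nat.cast_nonneg _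
  have hAc : A = (Fintype.card (Alt n) : ℝ) := by rw [hA, Nat.card_eq_fintype_card]
  set C : ℝ := (n.choose h : ℝ) with hC
  have hCpos : 0 < C := by
    rw [hC]
    exact_mod_cast Nat.choose_pos (by omega)
  have key : ∀ H ∈ (Finset.univ : Finset (Fin n)).powersetCard h,
      (Nat.card {x : Fin 2 → Alt n // ∀ i : Fin 2,
        (H.filter fun v => (x i : Equiv.Perm (Fin n)) v ∉ H).card ≤ b} : ℝ) ≤
      (2 ^ h * (n : ℝ) ^ b * A / C) ^ 2 := by
    intro H hH
    have hH' := (Finset.mem_powersetCard.1 hH).2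
    rw [pair_card (fun x : Alt n => (H.filter fun v => (x : Equiv.Perm (Fin n)) v ∉ H).card ≤ b)]
    push_cast
    refine pow_le_pow_left₀ (Nat.cast_nonneg _) ?_ 2
    rw [le_div_iff₀ hCpos, mul_comm, hAc, hC]
    exact_mod_cast good_card (b := b) hn H hH'
  refine (Finset.sum_le_sum key).trans ?_
  rw [Finset.sum_const, Finset.card_powersetCard, Finset.card_fin, nsmul_eq_mul]
  change C * (2 ^ h * (n : ℝ) ^ b * A / C) ^ 2 ≤ _
  have hnpos : (0 : ℝ) < n := by
    have : 0 < n := by omega
    exact_mod_cast this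
  have hhpos : (0 : ℝ) < h := by exact_mod_cast h1
  have h2 : (n : ℝ) ^ h ≤ C * (h : ℝ) ^ h := by
    rw [hC]
    exact_mod_cast pow_le_choose n h (by omega)
  have h3 : 1 / C ≤ ((h : ℝ) / n) ^ h := by
    rw [div_pow, div_le_div_iff₀ hCpos (by positivity), one_mul]
    linarith [mul_comm C ((h : ℝ) ^ h)]
  have h4 : C * (2 ^ h * (n : ℝ) ^ b * A / C) ^ 2 =
      A ^ 2 * (4 ^ h * (n : ℝ) ^ (2 * b)) * (1 / C) := by
    have h5 : (4 : ℝ) ^ h = 2 ^ h * 2 ^ h := by rw [← mul_pow]; norm_num
    rw [h5, two_mul b, pow_add]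
    field_simp
  rw [h4]
  have h6 : (4 * (h : ℝ) / n) ^ h = 4 ^ h * ((h : ℝ) / n) ^ h := by
    rw [← mul_pow]; ring_nf
  rw [h6]
  calc A ^ 2 * (4 ^ h * (n : ℝ) ^ (2 * b)) * (1 / C)
      ≤ A ^ 2 * (4 ^ h * (n : ℝ) ^ (2 * b)) * ((h : ℝ) / n) ^ h :=
        mul_le_mul_of_nonneg_left h3 (by positivity)
    _ = _ := by ring

end Pool.Agent.Helper3.AK
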